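import Pool.Agent.Lib.MP_662923_co.Main

namespace Pool.Agent.Results.MP_662923_co.NotSperner

open Pool.Agent.Lib.MP_662923_co

/-- There is a finite connected simple graph whose poset of connected spanning subgraphs has an
antichain strictly larger than every level. -/
theorem result : ∃ (n : ℕ) (G : SimpleGraph (Fin n)), G.Connected ∧
    ∃ A : Set (SimpleGraph (Fin n)), (∀ H ∈ A, H ≤ G ∧ H.Connected) ∧
      IsAntichain (· ≤ ·) A ∧
      ∀ k : ℕ, {H : SimpleGraph (Fin n) | H ≤ G ∧ H.Connected ∧ H.edgeSet.ncard = k}.ncard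
        < A.ncard := by
  refine ⟨19, gr E, G_connected, gr '' (A0 : Set (Finset ℕ)), ?_, A_antichain, level_lt⟩
  rintro _ ⟨T, hT, rfl⟩
  exact ⟨gr_mono (mem_A0 hT).1, (mem_A0 hT).2.1⟩

end Pool.Agent.Results.MP_662923_co.NotSperner
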